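import Pool.Agent.N979.CAP.Stm

/-!
# Project CAP, part INT: explicit integrals (helper262)
-/

set_option autoImplicit false

namespace Pool.Agent.N262.CAP_INT

open Real MeasureTheory Set Filter Topology

noncomputable def D (s ψ : ℝ) : ℝ := 1 - s ^ 2 * cos ψ ^ 2

theorem D_eq (s ψ : ℝ) : D s ψ = (1 - s ^ 2) * cos ψ ^ 2 + sin ψ ^ 2 := by
  have := sin_sq_add_cos_sq ψ
  unfold D
  linear_combination -this

theorem c_sq {s : ℝ} (h0 : 0 ≤ s) (h1 : s < 1) : √(1 - s ^ 2) ^ 2 = 1 - s ^ 2 :=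
  Real.sq_sqrt (by nlinarith)

theorem c_pos {s : ℝ} (h0 : 0 ≤ s) (h1 : s < 1) : 0 < √(1 - s ^ 2) :=
  Real.sqrt_pos.mpr (by nlinarith)

theorem D_pos {s : ℝ} (h0 : 0 ≤ s) (h1 : s < 1) (ψ : ℝ) : 0 < D s ψ := by
  have h2 : cos ψ ^ 2 ≤ 1 := cos_sq_le_one ψ
  have h3 : s ^ 2 < 1 := by nlinarith
  unfold D
  nlinarith [sq_nonneg s, sq_nonneg (cos ψ)]

theorem contD (s : ℝ) : Continuous (D s) := by unfold D; fun_prop

theorem alg (c C S : ℝ) (hc : 0 < c) (h : S ^ 2 + C ^ 2 = 1) (hB : 0 < c * C ^ 2 + S ^ 2)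
    (hD : 0 < c ^ 2 * C ^ 2 + S ^ 2) :
    (1 + 1 / (1 + ((1 - c) * (S * C) / (c * C ^ 2 + S ^ 2)) ^ 2) *
      (((1 - c) * (C * C + S * (-S)) * (c * C ^ 2 + S ^ 2) -
        (1 - c) * (S * C) * (c * (2 * C * (-S)) + 2 * S * C)) / (c * C ^ 2 + S ^ 2) ^ 2)) / c =
    1 / (c ^ 2 * C ^ 2 + S ^ 2) := by
  have hs : S ^ 2 = 1 - C ^ 2 := by linarith
  have key : (c * C ^ 2 + S ^ 2) ^ 2 + ((1 - c) * (S * C)) ^ 2 = c ^ 2 * C ^ 2 + S ^ 2 := by
    have : (c * C ^ 2 + S ^ 2) ^ 2 + ((1 - c) * (S * C)) ^ 2 =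
      (c * C ^ 2 + S ^ 2) ^ 2 + (1 - c) ^ 2 * (S ^ 2 * C ^ 2) := by ring
    rw [this, hs]
    ring
  have hk : 1 + ((1 - c) * (S * C) / (c * C ^ 2 + S ^ 2)) ^ 2 =
      (c ^ 2 * C ^ 2 + S ^ 2) / (c * C ^ 2 + S ^ 2) ^ 2 := by
    rw [← key]
    field_simp
  have hN : (1 - c) * (C * C + S * (-S)) * (c * C ^ 2 + S ^ 2) -
        (1 - c) * (S * C) * (c * (2 * C * (-S)) + 2 * S * C) = c - (c ^ 2 * C ^ 2 + S ^ 2) := by
    have : (1 - c) * (C * C + S * (-S)) * (c * C ^ 2 + S ^ 2) -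
        (1 - c) * (S * C) * (c * (2 * C * (-S)) + 2 * S * C) =
        (1 - c) * (C ^ 2 - S ^ 2) * (c * C ^ 2 + S ^ 2) -
        (1 - c) * (2 * (1 - c) * (S ^ 2 * C ^ 2)) := by ring
    rw [this, hs]
    ring
  rw [hk, hN]
  have hB2 := hB.ne'
  have hD2 := hD.ne'
  have hc2 := hc.ne'
  field_simp
  ring

theorem hden {c : ℝ} (hc0 : 0 < c) (ψ : ℝ) : 0 < c * cos ψ ^ 2 + sin ψ ^ 2 := by
  have h := sin_sq_add_cos_sq ψ
  rcases (sq_nonneg (cos ψ)).lt_or_eq with h2 | h2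
  · have := sq_nonneg (sin ψ); positivity
  · rw [← h2] at h ⊢; rw [mul_zero, zero_add]; linarith

theorem one {s : ℝ} (h0 : 0 ≤ s) (h1 : s < 1) :
    ∫ ψ in (0 : ℝ)..π, 1 / D s ψ = π / √(1 - s ^ 2) := by
  set c := √(1 - s ^ 2) with hc
  have hc0 : 0 < c := c_pos h0 h1
  have hc2 : c ^ 2 = 1 - s ^ 2 := c_sq h0 h1
  have hder : ∀ ψ ∈ uIcc (0 : ℝ) π, HasDerivAt
      (fun ψ => (ψ + arctan ((1 - c) * (sin ψ * cos ψ) / (c * cos ψ ^ 2 + sin ψ ^ 2))) / c)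
      (1 / D s ψ) ψ := by
    intro ψ _
    have e1 : HasDerivAt (fun ψ => (1 - c) * (sin ψ * cos ψ))
        ((1 - c) * (cos ψ * cos ψ + sin ψ * (-sin ψ))) ψ :=
      ((hasDerivAt_sin ψ).fun_mul (hasDerivAt_cos ψ)).const_mul _
    have a1 : HasDerivAt (fun ψ => c * cos ψ ^ 2) (c * (2 * cos ψ * (-sin ψ))) ψ := by
      have := ((hasDerivAt_cos ψ).fun_pow 2).const_mul c
      simpa using this
    have a2 : HasDerivAt (fun ψ => sin ψ ^ 2) (2 * sin ψ * cos ψ) ψ := by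
      have := (hasDerivAt_sin ψ).fun_pow 2
      simpa using this
    have e2 : HasDerivAt (fun ψ => c * cos ψ ^ 2 + sin ψ ^ 2)
        (c * (2 * cos ψ * (-sin ψ)) + 2 * sin ψ * cos ψ) ψ := a1.fun_add a2
    have e3 := e1.fun_div e2 (hden hc0 ψ).ne'
    have e4 := e3.arctan
    have e5 := ((hasDerivAt_id' ψ).fun_add e4).div_const c
    refine e5.congr_deriv ?_
    have hD : 0 < D s ψ := D_pos h0 h1 ψ
    have hDe : D s ψ = c ^ 2 * cos ψ ^ 2 + sin ψ ^ 2 := by rw [D_eq, hc2]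
    rw [hDe] at hD ⊢
    exact alg c (cos ψ) (sin ψ) hc0 (sin_sq_add_cos_sq ψ) (hden hc0 ψ) hD
  rw [intervalIntegral.integral_eq_sub_of_hasDerivAt hder]
  · simp
  · exact (continuous_const.div (contD s) fun ψ => (D_pos h0 h1 ψ).ne').intervalIntegrable _ _

theorem ibl (s : ℝ) (h0 : 0 ≤ s) (h1 : s < 1) (f : ℝ → ℝ) (hf : Continuous f) (n : ℕ) (a b : ℝ) :
    IntervalIntegrable (fun ψ => f ψ / D s ψ ^ n) volume a b :=
  (hf.div ((contD s).pow n) fun ψ => pow_ne_zero _ (D_pos h0 h1 ψ).ne').intervalIntegrable _ _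

theorem diff0 {s : ℝ} (h0 : 0 ≤ s) (h1 : s < 1) :
    ∫ ψ in (0 : ℝ)..π, ((1 - s ^ 2) * cos ψ ^ 2 - sin ψ ^ 2) / D s ψ ^ 2 = 0 := by
  have hder : ∀ ψ ∈ uIcc (0 : ℝ) π, HasDerivAt (fun ψ => sin ψ * cos ψ / D s ψ)
      (((1 - s ^ 2) * cos ψ ^ 2 - sin ψ ^ 2) / D s ψ ^ 2) ψ := by
    intro ψ _
    have e1 : HasDerivAt (fun ψ => sin ψ * cos ψ) (cos ψ * cos ψ + sin ψ * (-sin ψ)) ψ :=
      (hasDerivAt_sin ψ).fun_mul (hasDerivAt_cos ψ)
    have e2 : HasDerivAt (D s) (-(s ^ 2 * (2 * cos ψ * (-sin ψ)))) ψ := by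
      have : HasDerivAt (fun ψ => 1 - s ^ 2 * cos ψ ^ 2) (-(s ^ 2 * (2 * cos ψ * (-sin ψ)))) ψ := by
        have := (((hasDerivAt_cos ψ).fun_pow 2).const_mul (s ^ 2)).const_sub 1
        simpa using this
      exact this
    refine (e1.fun_div e2 (D_pos h0 h1 ψ).ne').congr_deriv ?_
    congr 1
    have hs : sin ψ ^ 2 = 1 - cos ψ ^ 2 := by have := sin_sq_add_cos_sq ψ; linarith
    unfold D
    have : (cos ψ * cos ψ + sin ψ * -sin ψ) * (1 - s ^ 2 * cos ψ ^ 2) -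
        sin ψ * cos ψ * -(s ^ 2 * (2 * cos ψ * -sin ψ)) =
        (cos ψ ^ 2 - sin ψ ^ 2) * (1 - s ^ 2 * cos ψ ^ 2) -
          2 * s ^ 2 * (sin ψ ^ 2 * cos ψ ^ 2) := by ring
    rw [this, hs]
    ring
  rw [intervalIntegral.integral_eq_sub_of_hasDerivAt hder]
  · simp
  · exact ibl s h0 h1 (fun ψ => (1 - s ^ 2) * cos ψ ^ 2 - sin ψ ^ 2) (by fun_prop) 2 _ _

theorem sum0 {s : ℝ} (h0 : 0 ≤ s) (h1 : s < 1) :
    (1 - s ^ 2) * (∫ ψ in (0 : ℝ)..π, cos ψ ^ 2 / D s ψ ^ 2) +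
      (∫ ψ in (0 : ℝ)..π, sin ψ ^ 2 / D s ψ ^ 2) = π / √(1 - s ^ 2) := by
  rw [← one h0 h1, ← intervalIntegral.integral_const_mul, ← intervalIntegral.integral_add]
  · refine intervalIntegral.integral_congr fun ψ _ => ?_
    have hD := (D_pos h0 h1 ψ).ne'
    have h2 := D_eq s ψ
    field_simp
    rw [← h2]
  · exact (ibl s h0 h1 (fun ψ => cos ψ ^ 2) (by fun_prop) 2 _ _).const_mul _
  · exact ibl s h0 h1 (fun ψ => sin ψ ^ 2) (by fun_prop) 2 _ _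

theorem dif0 {s : ℝ} (h0 : 0 ≤ s) (h1 : s < 1) :
    (1 - s ^ 2) * (∫ ψ in (0 : ℝ)..π, cos ψ ^ 2 / D s ψ ^ 2) -
      (∫ ψ in (0 : ℝ)..π, sin ψ ^ 2 / D s ψ ^ 2) = 0 := by
  have h := diff0 h0 h1
  rw [← intervalIntegral.integral_const_mul, ← intervalIntegral.integral_sub]
  · refine Eq.trans (intervalIntegral.integral_congr fun ψ _ => ?_) h
    ring
  · exact (ibl s h0 h1 (fun ψ => cos ψ ^ 2) (by fun_prop) 2 _ _).const_mul _
  · exact ibl s h0 h1 (fun ψ => sin ψ ^ 2) (by fun_prop) 2 _ _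

theorem ss {s : ℝ} (h0 : 0 ≤ s) (h1 : s < 1) :
    ∫ ψ in (0 : ℝ)..π, sin ψ ^ 2 / D s ψ ^ 2 = π / (2 * √(1 - s ^ 2)) := by
  have h2 := sum0 h0 h1
  have h3 := dif0 h0 h1
  have hc := (c_pos h0 h1).ne'
  have : π / (2 * √(1 - s ^ 2)) = (π / √(1 - s ^ 2)) / 2 := by field_simp
  rw [this]
  linarith

theorem cc {s : ℝ} (h0 : 0 ≤ s) (h1 : s < 1) :
    ∫ ψ in (0 : ℝ)..π, cos ψ ^ 2 / D s ψ ^ 2 = π / (2 * √(1 - s ^ 2) ^ 3) := by
  have h2 := sum0 h0 h1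
  have h3 := dif0 h0 h1
  have hc := (c_pos h0 h1).ne'
  have hc2 := c_sq h0 h1
  have h4 : √(1 - s ^ 2) ^ 2 * (∫ ψ in (0 : ℝ)..π, cos ψ ^ 2 / D s ψ ^ 2) =
      (π / √(1 - s ^ 2)) / 2 := by rw [hc2]; linarith
  have h5 : (∫ ψ in (0 : ℝ)..π, cos ψ ^ 2 / D s ψ ^ 2) =
      (π / √(1 - s ^ 2)) / 2 / √(1 - s ^ 2) ^ 2 := by
    rw [← h4]; field_simp
  rw [h5]
  field_simp

theorem cD (s : ℝ) : ∫ ψ in (0 : ℝ)..π, cos ψ ^ 2 * D s ψ = π / 2 - 3 * π * s ^ 2 / 8 := by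
  have hder : ∀ ψ ∈ uIcc (0 : ℝ) π, HasDerivAt
      (fun ψ => ψ / 2 + sin (2 * ψ) / 4 -
        s ^ 2 * (3 * ψ / 8 + sin (2 * ψ) / 4 + sin (4 * ψ) / 32)) (cos ψ ^ 2 * D s ψ) ψ := by
    intro ψ _
    have e2 : HasDerivAt (fun ψ => sin (2 * ψ)) (cos (2 * ψ) * 2) ψ := by
      simpa using ((hasDerivAt_id' ψ).const_mul 2).sin
    have e4 : HasDerivAt (fun ψ => sin (4 * ψ)) (cos (4 * ψ) * 4) ψ := by
      simpa using ((hasDerivAt_id' ψ).const_mul 4).sin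
    have e := (((hasDerivAt_id' ψ).div_const 2).fun_add (e2.div_const 4)).fun_sub
      (((((hasDerivAt_id' ψ).const_mul 3).div_const 8).fun_add (e2.div_const 4)).fun_add
        (e4.div_const 32) |>.const_mul (s ^ 2))
    refine e.congr_deriv ?_
    have h4 : cos (4 * ψ) = 2 * cos (2 * ψ) ^ 2 - 1 := by
      rw [show 4 * ψ = 2 * (2 * ψ) by ring, cos_two_mul]
    rw [h4, cos_two_mul]
    unfold D
    ring
  rw [intervalIntegral.integral_eq_sub_of_hasDerivAt hder]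
  · have h2 : sin (2 * π) = 0 := sin_two_pi
    have h4 : sin (4 * π) = 0 := by
      rw [show 4 * π = 2 * π + 2 * π by ring, sin_add, h2]; ring
    rw [h2, h4]
    simp
    ring
  · exact ((continuous_cos.pow 2).mul (contD s)).intervalIntegrable _ _

theorem sD (s : ℝ) : ∫ ψ in (0 : ℝ)..π, sin ψ ^ 2 * D s ψ = π / 2 - π * s ^ 2 / 8 := by
  have hder : ∀ ψ ∈ uIcc (0 : ℝ) π, HasDerivAt
      (fun ψ => ψ / 2 - sin (2 * ψ) / 4 - s ^ 2 * (ψ / 8 - sin (4 * ψ) / 32))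
      (sin ψ ^ 2 * D s ψ) ψ := by
    intro ψ _
    have e2 : HasDerivAt (fun ψ => sin (2 * ψ)) (cos (2 * ψ) * 2) ψ := by
      simpa using ((hasDerivAt_id' ψ).const_mul 2).sin
    have e4 : HasDerivAt (fun ψ => sin (4 * ψ)) (cos (4 * ψ) * 4) ψ := by
      simpa using ((hasDerivAt_id' ψ).const_mul 4).sin
    have e := (((hasDerivAt_id' ψ).div_const 2).fun_sub (e2.div_const 4)).fun_sub
      ((((hasDerivAt_id' ψ).div_const 8).fun_sub (e4.div_const 32)).const_mul (s ^ 2))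
    refine e.congr_deriv ?_
    have h4 : cos (4 * ψ) = 2 * cos (2 * ψ) ^ 2 - 1 := by
      rw [show 4 * ψ = 2 * (2 * ψ) by ring, cos_two_mul]
    have hs : sin ψ ^ 2 = 1 - cos ψ ^ 2 := by have := sin_sq_add_cos_sq ψ; linarith
    rw [h4, cos_two_mul, hs]
    unfold D
    ring
  rw [intervalIntegral.integral_eq_sub_of_hasDerivAt hder]
  · have h2 : sin (2 * π) = 0 := sin_two_pi
    have h4 : sin (4 * π) = 0 := by
      rw [show 4 * π = 2 * π + 2 * π by ring, sin_add, h2]; ring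
    rw [h2, h4]
    simp
    ring
  · exact ((continuous_sin.pow 2).mul (contD s)).intervalIntegrable _ _

theorem odd (F : ℝ → ℝ) : ∫ ψ in (0 : ℝ)..π, sin ψ * cos ψ * F (cos ψ ^ 2) = 0 := by
  have h1 := intervalIntegral.integral_comp_sub_left (a := (0 : ℝ)) (b := π)
    (fun ψ => sin ψ * cos ψ * F (cos ψ ^ 2)) π
  simp only [sub_self, sub_zero, sin_pi_sub, cos_pi_sub, neg_sq] at h1
  have h2 : (∫ ψ in (0 : ℝ)..π, sin ψ * -cos ψ * F (cos ψ ^ 2)) =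
      -∫ ψ in (0 : ℝ)..π, sin ψ * cos ψ * F (cos ψ ^ 2) := by
    rw [← intervalIntegral.integral_neg]
    refine intervalIntegral.integral_congr fun ψ _ => ?_
    ring
  rw [h2] at h1
  linarith

theorem circ {s : ℝ} (θ : ℝ) (h0 : 0 ≤ s) (h1 : s < 1) :
    ∫ φ in (0 : ℝ)..(2 * π), s ^ 2 * sin (θ - φ) ^ 2 / D s (θ - φ)
      = 2 * π * (1 - √(1 - s ^ 2)) := by
  set f : ℝ → ℝ := fun ψ => s ^ 2 * sin ψ ^ 2 / D s ψ with hf
  have hper : Function.Periodic f π := by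
    intro ψ
    simp only [hf, D, sin_add_pi, cos_add_pi, neg_sq]
  have hcont : Continuous f := by
    refine Continuous.div (by fun_prop) (contD s) fun ψ => (D_pos h0 h1 ψ).ne'
  have h2 : ∫ φ in (0 : ℝ)..(2 * π), s ^ 2 * sin (θ - φ) ^ 2 / D s (θ - φ) =
      ∫ ψ in (θ - 2 * π)..θ, f ψ := by
    have := intervalIntegral.integral_comp_sub_left (a := (0 : ℝ)) (b := 2 * π) f θ
    rw [sub_zero] at this
    exact this
  have h3 : ∫ ψ in (θ - 2 * π)..θ, f ψ = 2 * ∫ ψ in (0 : ℝ)..π, f ψ := by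
    have e1 : ∫ ψ in (θ - 2 * π)..(θ - 2 * π + π), f ψ = ∫ ψ in (0 : ℝ)..(0 + π), f ψ :=
      hper.intervalIntegral_add_eq _ _
    have e2 : ∫ ψ in (θ - π)..(θ - π + π), f ψ = ∫ ψ in (0 : ℝ)..(0 + π), f ψ :=
      hper.intervalIntegral_add_eq _ _
    have e3 := intervalIntegral.integral_add_adjacent_intervals
      (hcont.intervalIntegrable (μ := volume) (θ - 2 * π) (θ - π))
      (hcont.intervalIntegrable (μ := volume) (θ - π) θ)
    rw [show θ - 2 * π + π = θ - π by ring, zero_add] at e1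
    rw [show θ - π + π = θ by ring, zero_add] at e2
    rw [← e3, e1, e2]
    ring
  have h4 : ∫ ψ in (0 : ℝ)..π, f ψ = π - (1 - s ^ 2) * (π / √(1 - s ^ 2)) := by
    rw [← one h0 h1, ← intervalIntegral.integral_const_mul]
    have h5 : (∫ ψ in (0 : ℝ)..π, (1 : ℝ)) - ∫ ψ in (0 : ℝ)..π, (1 - s ^ 2) * (1 / D s ψ) =
        π - ∫ ψ in (0 : ℝ)..π, (1 - s ^ 2) * (1 / D s ψ) := by simp
    rw [← h5, ← intervalIntegral.integral_sub]
    · refine intervalIntegral.integral_congr fun ψ _ => ?_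
      have hD := (D_pos h0 h1 ψ).ne'
      have hs : sin ψ ^ 2 = 1 - cos ψ ^ 2 := by have := sin_sq_add_cos_sq ψ; linarith
      simp only [hf]
      rw [hs]
      field_simp
      unfold D
      ring
    · exact intervalIntegrable_const
    · have := ibl s h0 h1 (fun _ => 1) (by fun_prop) 1 0 π
      simp only [pow_one] at this
      exact this.const_mul _
  rw [h2, h3, h4]
  have hc := (c_pos h0 h1).ne'
  have hc2 := c_sq h0 h1
  have : (1 - s ^ 2) * (π / √(1 - s ^ 2)) = π * √(1 - s ^ 2) := by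
    field_simp
    exact hc2.symm
  rw [this]
  ring

theorem main : Pool.Agent.N979.CAP.S_INT where
  one := fun _ h0 h1 => one h0 h1
  cc := fun _ h0 h1 => cc h0 h1
  ss := fun _ h0 h1 => ss h0 h1
  cD := cD
  sD := sD
  odd := odd
  circ := fun _ θ h0 h1 => circ θ h0 h1

end Pool.Agent.N262.CAP_INT
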