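import Pool.Agent.N906.FH.Stm
import Pool.Agent.N72.SZ_EUPQ

/-!
# Project FH: the generating function with weight 1 (GEN1)

Uses the Euler product of project SZ (`Pool.Agent.N72.SZ.eupq`, helper72).
-/

set_option autoImplicit false

namespace Pool.Agent.N262.FH

open Finset Filter Topology
open Pool.Agent.N906.SZ Pool.Agent.N906.FH Pool.Agent.N72.SZ

/-- the local weights -/
noncomputable def gw1 (u : ℝ) (p e : ℕ) : ℝ :=
  (if 5 ≤ p then 1 / (p : ℝ) else 1) * ((p : ℝ) ^ (-u)) ^ e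

theorem gw1_nonneg (u : ℝ) (p e : ℕ) : 0 ≤ gw1 u p e := by
  unfold gw1
  split_ifs <;> positivity

theorem gw1_sum {u : ℝ} (hu : 0 < u) {p : ℕ} (hp : p.Prime) :
    Summable (fun e : ℕ => gw1 u p (e + 1)) ∧
    1 + ∑' e : ℕ, gw1 u p (e + 1) ≤
      (1 + 1 * (p : ℝ) ^ ((0 : ℝ) * u - 1) / ((p : ℝ) ^ u - 1)) *
        (if p < 5 then 1 + 2 / u else 1) := by
  have hp0 : (0 : ℝ) < p := by exact_mod_cast hp.pos
  have hu1 : 1 < (p : ℝ) ^ u := Real.one_lt_rpow (by exact_mod_cast hp.one_lt) hu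
  have hu2 : 0 < (p : ℝ) ^ u - 1 := by linarith
  have hA : 1 ≤ 1 + 1 * (p : ℝ) ^ ((0 : ℝ) * u - 1) / ((p : ℝ) ^ u - 1) := by
    have : 0 ≤ 1 * (p : ℝ) ^ ((0 : ℝ) * u - 1) / ((p : ℝ) ^ u - 1) := by positivity
    linarith
  by_cases h5 : p < 5
  · have hn5 : ¬ 5 ≤ p := by omega
    have e1 : (fun e : ℕ => gw1 u p (e + 1)) = fun e : ℕ => 1 * ((p : ℝ) ^ (-u)) ^ (e + 1) := by
      funext e
      unfold gw1
      rw [if_neg hn5]
    have h1 := geo hp hu 1
    rw [← e1] at h1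
    refine ⟨h1.summable, ?_⟩
    rw [h1.tsum_eq, if_pos h5]
    have h2 : 1 + 1 / ((p : ℝ) ^ u - 1) ≤ 1 + 2 / u := by
      have h3 : u * Real.log 2 ≤ (p : ℝ) ^ u - 1 := by
        rw [Real.rpow_def_of_pos hp0]
        have h4 := Real.add_one_le_exp (Real.log p * u)
        have h6 : Real.log 2 ≤ Real.log p :=
          Real.log_le_log two_pos (by exact_mod_cast hp.two_le)
        nlinarith
      have h7 : (1 : ℝ) / 2 ≤ Real.log 2 := by
        have := Real.log_two_gt_d9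
        linarith
      have h8 : u / 2 ≤ (p : ℝ) ^ u - 1 := by nlinarith
      have h9 : 1 / ((p : ℝ) ^ u - 1) ≤ 2 / u := by
        rw [div_le_div_iff₀ hu2 hu]
        linarith
      linarith
    have h11 : (0 : ℝ) ≤ 1 + 2 / u := by positivity
    calc 1 + 1 / ((p : ℝ) ^ u - 1) ≤ 1 + 2 / u := h2
      _ = 1 * (1 + 2 / u) := by ring
      _ ≤ _ := mul_le_mul_of_nonneg_right hA h11
  · have hn5 : 5 ≤ p := by omega
    have e1 : (fun e : ℕ => gw1 u p (e + 1)) =
        fun e : ℕ => 1 / (p : ℝ) * ((p : ℝ) ^ (-u)) ^ (e + 1) := by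
      funext e
      unfold gw1
      rw [if_pos hn5]
    have h1 := geo hp hu (1 / (p : ℝ))
    rw [← e1] at h1
    refine ⟨h1.summable, ?_⟩
    rw [h1.tsum_eq, if_neg h5, zero_mul, zero_sub, Real.rpow_neg_one, mul_one, one_mul, one_div]

theorem gen1' : S_GEN1 := by
  intro ε hε
  obtain ⟨u₀, h1, h2, h3⟩ := eupq 1 0 (ε / 2) one_pos le_rfl (by norm_num) (by positivity)
  have hsm := small (ε / 2) (by positivity)
  obtain ⟨u₁, hu₁, hu₁'⟩ := mem_nhdsGT_iff_exists_Ioo_subset.1 hsm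
  have hu₁0 : (0 : ℝ) < u₁ := hu₁
  refine ⟨min u₀ u₁, lt_min h1 hu₁0, (min_le_left _ _).trans_lt h2, fun u hu huu F hF => ?_⟩
  have huu0 : u < u₀ := huu.trans_le (min_le_left _ _)
  have huu1 : u < u₁ := huu.trans_le (min_le_right _ _)
  have hsm' : (1 + 2 / u) ^ 8 ≤ Real.exp (ε / 2 / (u * Real.log (1 / u))) := hu₁' ⟨hu, huu1⟩
  have hmf : ∀ n ∈ F, (fun _ : ℕ => (1 : ℝ)) n * (n : ℝ) ^ (-u) / rd n = mf (gw1 u) n := by
    intro n hn
    simp only [one_mul]
    rw [rpow_eq (hF n hn)]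
    unfold mf rd gw1
    rw [Finset.prod_mul_distrib]
    push_cast
    rw [Finset.prod_filter, div_eq_inv_mul]
    congr 1
    rw [← Finset.prod_inv_distrib]
    refine Finset.prod_congr rfl fun p _ => ?_
    split_ifs <;> simp
  rw [Finset.sum_congr rfl hmf]
  set s := F.biUnion Nat.primeFactors with hs
  have hsp : ∀ p ∈ s, p.Prime := by
    intro p hp
    obtain ⟨n, _, h⟩ := Finset.mem_biUnion.1 hp
    exact Nat.prime_of_mem_primeFactors h
  refine (sum_mf_le (gw1 u) (gw1_nonneg u) (fun p hp => (gw1_sum hu hp).1) F hF).trans ?_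
  have hpos : ∀ p ∈ s, 0 < 1 + 1 * (p : ℝ) ^ ((0 : ℝ) * u - 1) / ((p : ℝ) ^ u - 1) := by
    intro p hp
    have hu1 : 1 < (p : ℝ) ^ u :=
      Real.one_lt_rpow (by exact_mod_cast (hsp p hp).one_lt) hu
    have : 0 < (p : ℝ) ^ u - 1 := by linarith
    positivity
  have hstep : ∏ p ∈ s, (1 + ∑' e : ℕ, gw1 u p (e + 1)) ≤
      ∏ p ∈ s, ((1 + 1 * (p : ℝ) ^ ((0 : ℝ) * u - 1) / ((p : ℝ) ^ u - 1)) *
        (if p < 5 then 1 + 2 / u else 1)) := by
    refine Finset.prod_le_prod (fun p _ => ?_) (fun p hp => (gw1_sum hu (hsp p hp)).2)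
    have : 0 ≤ ∑' e : ℕ, gw1 u p (e + 1) := tsum_nonneg fun e => gw1_nonneg u p _
    linarith
  refine hstep.trans ?_
  rw [Finset.prod_mul_distrib]
  have k1 : ∏ p ∈ s, (1 + 1 * (p : ℝ) ^ ((0 : ℝ) * u - 1) / ((p : ℝ) ^ u - 1)) ≤
      Real.exp ((1 + ε / 2) * 1 / (u * Real.log (1 / u))) := by
    calc _ = Real.exp (∑ p ∈ s,
        Real.log (1 + 1 * (p : ℝ) ^ ((0 : ℝ) * u - 1) / ((p : ℝ) ^ u - 1))) := by
          rw [Real.exp_sum]
          exact Finset.prod_congr rfl fun p hp => (Real.exp_log (hpos p hp)).symm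
      _ ≤ _ := Real.exp_le_exp.2 (h3 u hu huu0 _ hsp)
  have hd1 : (1 : ℝ) ≤ 1 + 2 / u := by
    have : 0 < 2 / u := by positivity
    linarith
  have k3 : ∏ p ∈ s, (if p < 5 then 1 + 2 / u else (1 : ℝ)) ≤ (1 + 2 / u) ^ 8 := by
    rw [Finset.prod_ite, Finset.prod_const, Finset.prod_const_one, mul_one]
    apply pow_le_pow_right₀ hd1
    have : s.filter (fun p => p < 5) ⊆ Finset.range 5 := by
      intro p hp
      rw [Finset.mem_filter] at hp
      exact Finset.mem_range.2 hp.2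
    have := Finset.card_le_card this
    rw [Finset.card_range] at this
    omega
  calc _ ≤ Real.exp ((1 + ε / 2) * 1 / (u * Real.log (1 / u))) *
        Real.exp (ε / 2 / (u * Real.log (1 / u))) := by
        refine mul_le_mul k1 (k3.trans hsm') ?_ (Real.exp_pos _).le
        refine Finset.prod_nonneg fun p _ => ?_
        split_ifs <;> positivity
    _ = Real.exp ((1 + ε) * 1 / (u * Real.log (1 / u))) := by
        rw [← Real.exp_add]
        congr 1
        ring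

/-- GEN1 -/
theorem gen1 (_h : S_GUPQ) : S_GEN1 := gen1'

end Pool.Agent.N262.FH
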