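import Pool.Agent.N502.FR.Stm

/-!
Project FR (helper502), leaf STP: pointwise recursion of the integrand.
-/

set_option autoImplicit false

namespace Pool.Agent.N262.FR_STP

open Finset Pool.Agent.N502.FR

theorem main : S_STP := by
  intro A B a b t hA hB ha hb ht
  have ha1 : (0 : ℝ) < a := by exact_mod_cast hA a ha
  have hb1 : (0 : ℝ) < b := by exact_mod_cast hB b hb
  have sc : ∀ c : ℝ, 0 < c → c * Real.sin (Real.arctan (t / c)) =
      t * Real.cos (Real.arctan (t / c)) := by
    intro c hc
    rw [Real.sin_arctan, Real.cos_arctan]
    field_simp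
  have s1 := sc a ha1
  have s2 := sc b hb1
  have h1 : rho A t = Real.cos (Real.arctan (t / a)) * rho (A.erase a) t := by
    unfold rho
    rw [Real.cos_arctan, ← Finset.mul_prod_erase A _ ha]
  have h2 : rho B t = Real.cos (Real.arctan (t / b)) * rho (B.erase b) t := by
    unfold rho
    rw [Real.cos_arctan, ← Finset.mul_prod_erase B _ hb]
  have h3 : th (A.erase a) t = th A t - Real.arctan (t / a) := by
    unfold th
    rw [← Finset.add_sum_erase A _ ha]
    ring
  have h4 : th (B.erase b) t = th B t - Real.arctan (t / b) := by
    unfold th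
    rw [← Finset.add_sum_erase B _ hb]
    ring
  unfold kf
  rw [h1, h2, h3, h4]
  have e1 : th A t - Real.arctan (t / a) - th B t =
      (th A t - th B t) - Real.arctan (t / a) := by ring
  have e2 : th A t - (th B t - Real.arctan (t / b)) =
      (th A t - th B t) + Real.arctan (t / b) := by ring
  rw [e1, e2, Real.sin_sub (th A t - th B t) (Real.arctan (t / a)),
    Real.sin_add (th A t - th B t) (Real.arctan (t / b))]
  generalize Real.cos (Real.arctan (t / a)) = ca at *
  generalize Real.cos (Real.arctan (t / b)) = cb at *
  generalize Real.sin (Real.arctan (t / a)) = sa at *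
  generalize Real.sin (Real.arctan (t / b)) = sb at *
  generalize rho (A.erase a) t = P at *
  generalize rho (B.erase b) t = Q at *
  linear_combination (P * Q / t * Real.cos (th A t - th B t) * cb) * s1 -
    (P * Q / t * Real.cos (th A t - th B t) * ca) * s2

end Pool.Agent.N262.FR_STP
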